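import Mathlib
import Pool.Agent.H670GS.Final

set_option autoImplicit false

/-! # Group Spencer for all finite groups

For every finite group `G` and all coefficients `|c g| ≤ 1` there are signs `ε g` such that
`∑ ε g c g ρ(g)`, `ρ` the left regular representation, has operator norm at most `C √|G|`. -/

open scoped Matrix.Norms.L2Operator

namespace Pool.Agent.Results.MP_1157dd_an.GroupSpencer

/-- the left regular representation: the entry of `reg g` at `(h, k)` is `1` if `h = g k` and `0`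
otherwise -/
noncomputable def reg {G : Type} [Group G] [DecidableEq G] (g : G) : Matrix G G ℝ :=
  Matrix.of fun h k => if g * k = h then 1 else 0

/-- Group Spencer for all finite groups, with coefficients. -/
theorem result : ∃ C : ℝ, 0 < C ∧ ∀ (G : Type) [Group G] [Fintype G] [DecidableEq G] (c : G → ℝ),
    (∀ g, |c g| ≤ 1) → ∃ ε : G → ℝ, (∀ g, ε g = 1 ∨ ε g = -1) ∧
      ‖∑ g : G, (ε g * c g) • reg g‖ ≤ C * √(Fintype.card G) := by
  obtain ⟨-, ⟨D, hD⟩⟩ := Pool.Agent.H172R2.GS.gs_main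
  refine ⟨|D| + 1, by positivity, ?_⟩
  intro G _ _ _ c hc
  obtain ⟨ε, hε, h⟩ := hD G c hc
  refine ⟨ε, hε, ?_⟩
  set M : Matrix G G ℝ := ∑ g : G, (ε g * c g) • reg g with hMd
  have hb : 0 ≤ (|D| + 1) * √(Fintype.card G : ℝ) := by positivity
  rw [Matrix.l2_opNorm_def]
  refine ContinuousLinearMap.opNorm_le_bound _ hb fun v => ?_
  have h1 := h (fun a => v a)
  have h2 : ‖(Matrix.toEuclideanLin (𝕜 := ℝ) M) v‖ ^ 2 ≤
      ((|D| + 1) * √(Fintype.card G : ℝ) * ‖v‖) ^ 2 := by
    have e1 : ‖(Matrix.toEuclideanLin (𝕜 := ℝ) M) v‖ ^ 2 =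
        ∑ a : G, (M.mulVec (fun a => v a) a) ^ 2 := by
      rw [EuclideanSpace.norm_sq_eq]
      refine Finset.sum_congr rfl fun a _ => ?_
      rw [Real.norm_eq_abs, sq_abs]
      rfl
    have e2 : ‖v‖ ^ 2 = ∑ a : G, (v a) ^ 2 := by
      rw [EuclideanSpace.norm_sq_eq]
      refine Finset.sum_congr rfl fun a _ => ?_
      rw [Real.norm_eq_abs, sq_abs]
    rw [e1, mul_pow, mul_pow, Real.sq_sqrt (by positivity), e2]
    refine h1.trans ?_
    have h3 : D ^ 2 ≤ (|D| + 1) ^ 2 := by
      rw [← sq_abs D]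
      exact pow_le_pow_left₀ (abs_nonneg _) (by linarith) 2
    have h4 : 0 ≤ (Fintype.card G : ℝ) * ∑ a : G, (v a) ^ 2 := by positivity
    nlinarith [mul_le_mul_of_nonneg_right h3 h4]
  exact abs_le_of_sq_le_sq' h2 (by positivity) |>.2

end Pool.Agent.Results.MP_1157dd_an.GroupSpencer
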